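import Mathlib

set_option autoImplicit false

namespace Pool.Agent.Results.MP_ab03e0_co.OrderSeventeen

/-- `op` is a quasigroup operation on `S`: for all `a, b` each of the equations `a x = b` and
`x a = b` has exactly one solution `x`. -/
def IsQuasigroup {S : Type} (op : S → S → S) : Prop :=
  (∀ a b, ∃! x, op a x = b) ∧ (∀ a b, ∃! x, op x a = b)

/-- The orthomorphism-like permutation behind the model. -/
def f : Fin 17 → Fin 17 :=
  ![0, 4, 8, 5, 16, 14, 10, 6, 15, 2, 11, 7, 3, 1, 12, 9, 13]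

/-- The product `x y = x + f (y - x)` modulo `17`. -/
def op (x y : Fin 17) : Fin 17 := x + f (y - x)

/-- inverse of `f` -/
def fi : Fin 17 → Fin 17 :=
  ![0, 13, 9, 12, 1, 3, 7, 11, 2, 15, 6, 10, 14, 16, 5, 8, 4]

/-- inverse of `z ↦ z - f z` -/
def gi : Fin 17 → Fin 17 :=
  ![0, 7, 14, 16, 11, 4, 15, 9, 5, 12, 8, 2, 13, 6, 1, 3, 10]

lemma f_fi : ∀ z : Fin 17, f (fi z) = z := by decide

lemma fi_f : ∀ z : Fin 17, fi (f z) = z := by decide

lemma g_gi : ∀ z : Fin 17, gi z - f (gi z) = z := by decide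

lemma gi_g : ∀ z : Fin 17, gi (z - f z) = z := by decide

/-- the identity, reduced to one variable -/
lemma ident : ∀ d : Fin 17, f d + f (d - f d) = f (f d) := by decide

/-- **Answer to Q1.** There is a quasigroup of order `17` satisfying `(xy)y = x(xy)`. -/
theorem result :
    ∃ op : Fin 17 → Fin 17 → Fin 17,
      IsQuasigroup op ∧ ∀ x y : Fin 17, op (op x y) y = op x (op x y) := by
  refine ⟨op, ⟨fun a b => ⟨a + fi (b - a), ?_, ?_⟩, fun a b => ⟨a - gi (a - b), ?_, ?_⟩⟩, ?_⟩
  · show a + f (a + fi (b - a) - a) = b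
    rw [add_sub_cancel_left, f_fi, add_sub_cancel]
  · intro y hy
    have hy' : a + f (y - a) = b := hy
    rw [← hy', add_sub_cancel_left, fi_f, add_sub_cancel]
  · show a - gi (a - b) + f (a - (a - gi (a - b))) = b
    have h := g_gi (a - b)
    rw [sub_sub_cancel]
    have h2 : f (gi (a - b)) = gi (a - b) - (a - b) := by
      rw [eq_sub_iff_add_eq, add_comm, ← eq_sub_iff_add_eq]; exact h.symm
    rw [h2]; abel
  · intro y hy
    have hy' : y + f (a - y) = b := hy
    have h : a - b = (a - y) - f (a - y) := by rw [← hy']; abel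
    rw [h, gi_g, sub_sub_cancel]
  · intro x y
    show x + f (y - x) + f (y - (x + f (y - x))) = x + f (x + f (y - x) - x)
    have h := ident (y - x)
    rw [add_sub_cancel_left, ← h, add_assoc, ← sub_sub]

end Pool.Agent.Results.MP_ab03e0_co.OrderSeventeen
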